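import Pool.Agent.helper37.NF.Spec

set_option autoImplicit false

namespace Pool.Agent.helper37.NF

open Finset Pool.Agent.NK

/-- a fast binomial coefficient -/
def SMA_ch (n k : ℕ) : ℕ := n.descFactorial k / k.factorial

theorem SMA_ch_eq (n k : ℕ) : SMA_ch n k = n.choose k :=
  (Nat.choose_eq_descFactorial_div_factorial n k).symm

/-- the inequality, with a fast binomial coefficient -/
def SMA_ok (t i n : ℕ) : Bool :=
  if 2 ≤ i ∧ i + 2 ≤ t ∧ 4 * t ≤ n ∧ n < 10 * t then
    decide (SMA_ch (i * (n + 1) / t) i * SMA_ch (n - i * (n + 1) / t) (t - i) +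
      (n + 1) / (t - 2) * SMA_ch (n - (n + 1) / (t - 2)) (t - 2 - 1) ≤
    (n + 1) / t * SMA_ch (n - (n + 1) / t) (t - 1))
  else true

theorem SMA_fin : ∀ t < 12, ∀ i < 12, ∀ n < 110, SMA_ok t i n = true := by
  decide +kernel

theorem SMA (h : UNI_stmt) : SMA_stmt := by
  intro a b i j hi hj ht h4 h10
  have hu := h a b i j (by omega) (by omega) (by omega)
  have hf := SMA_fin (i + j) (by omega) i (by omega) (a + b) (by omega)
  unfold SMA_ok at hf
  rw [if_pos ⟨hi, by omega, h4, h10⟩] at hf
  have hf' := of_decide_eq_true hf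
  simp only [SMA_ch_eq] at hf'
  have e : i + j - i = j := by omega
  rw [e] at hf'
  unfold MV
  exact (Nat.add_le_add_right hu _).trans hf'

end Pool.Agent.helper37.NF
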